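import Mathlib
import Pool.Agent.MP_30dcea_gt.Bridge

/-!
A free boundary minimal embedding into the unit ball of a compact surface with two boundary
components, by first Steklov eigenfunctions of multiplicity three, that admits a second free
boundary harmonic map by first eigenfunctions not congruent to it, is the critical catenoid.
-/

open scoped Manifold ContDiff

namespace Pool.Agent.Results.MP_30dcea_gt.Catenoid

open Pool.Agent.MP_30dcea_gt

universe u

theorem result (N : Type u) [TopologicalSpace N] [T2Space N] [CompactSpace N] [ConnectedSpace N]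
    [ChartedSpace (EuclideanHalfSpace 2) N] [IsManifold I2 ∞ N]
    (hbd : Nat.card (ConnectedComponents (I2.boundary N)) = 2)
    (g : RMetric I2 N) (σ : ℝ) (hσ : IsFirstEigenvalue g σ) (hmult : multiplicity g σ = 3)
    (Ψ : N → E3) (hΨ : IsEigenMap g σ Ψ) (hemb : IsConformalEmbedding g Ψ)
    (Ξ : N → E3) (hΞ : IsEigenMap g σ Ξ) (hne : ∀ A : E3 ≃ₗᵢ[ℝ] E3, Ξ ≠ A ∘ Ψ) :
    ∃ T : ℝ, 0 < T ∧ T * Real.tanh T = 1 ∧
      ∃ A : E3 ≃ₗᵢ[ℝ] E3, Set.range Ψ = A '' catenoidPiece T :=
  main hbd hσ.1.1 hmult hΨ hemb hΞ hne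

end Pool.Agent.Results.MP_30dcea_gt.Catenoid
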